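import Pool.Agent.H386.LG.Fam

/-!
# Sums of two distinct primes, one of them in a prescribed interval, along thin families

Definitions: `Pool.Agent.H386.LG.Wp n Y` is the sum of `log p log (n - p)` over the primes `p ≤ Y` for
which `n - p` is prime; `Pool.Agent.H560R3.GB.sing n = 2 C₂ ∏_{p ∣ n, p > 2} (p - 1) / (p - 2)`;
`Pool.Agent.H373R2.T7.energy h x a` is the additive energy of order `h` of `a 1, ..., a x`;
`Pool.Agent.H386.LG.rep h A t` is the number of representations of `t` as an ordered sum of `h` elements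
of the set `A`.
-/

set_option autoImplicit false

namespace Pool.Agent.Results.MP_7b7e48_nt.EveryInterval

open Finset Pool.Agent.H560R3.GB Pool.Agent.H386.LG

open Classical in
theorem one (h C U : ℕ) :
    ∃ N₀ : ℕ, ∀ N : ℕ, N₀ ≤ N → ∀ (x : ℕ) (a : ℕ → ℤ),
      (Pool.Agent.H373R2.T7.energy h x a : ℝ) * N ≤ Real.log N ^ C * (x : ℝ) ^ (2 * h) →
      ∀ T : Finset (ℤ × ℤ), (T.card : ℝ) ≤ Real.log N ^ U →
      (∀ t ∈ T, t.1 ≠ 0 ∧ ∀ m ∈ Icc 1 x, ∃ n : ℕ, 1 ≤ n ∧ 2 * n ≤ N ∧ t.1 * a m + t.2 = 2 * n) →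
      (((Icc 1 x).filter (fun m => ¬ ∀ t ∈ T, ∀ n : ℕ, t.1 * a m + t.2 = 2 * n → ∀ Y < 2 * n,
        |Wp (2 * n) Y - sing (2 * n) * Y| ≤ N / Real.log N ^ U)).card : ℝ) ≤ x / Real.log N ^ U := by
  obtain ⟨N₀, h0⟩ := loc_main h C (U + U)
  refine ⟨N₀ + 3, fun N hN x a hE T hT hTa => ?_⟩
  have hN3 : (3 : ℝ) ≤ N := by exact_mod_cast (by omega : 3 ≤ N)
  have hL1 : 1 ≤ Real.log N := by
    rw [Real.le_log_iff_exp_le (by linarith)]
    linarith [Real.exp_one_lt_d9]
  have hL : 0 < Real.log N := by linarith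
  have hmono : (N : ℝ) / Real.log N ^ (U + U) ≤ N / Real.log N ^ U :=
    div_le_div_of_nonneg_left (by linarith) (by positivity) (pow_le_pow_right₀ hL1 (by omega))
  have key : ∀ t : ℤ × ℤ, ∃ S : Finset ℕ, t ∈ T → (S.card : ℝ) ≤ x / Real.log N ^ (U + U) ∧
      ∀ m ∈ Icc 1 x, m ∉ S → ∀ n : ℕ, t.1 * a m + t.2 = 2 * n → ∀ Y < 2 * n,
        |Wp (2 * n) Y - sing (2 * n) * Y| ≤ N / Real.log N ^ U := by
    intro t
    by_cases ht : t ∈ T
    · obtain ⟨hc, hk⟩ := hTa t ht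
      have hs : ∀ m ∈ Icc 1 x, (((t.1 * a m + t.2).toNat : ℕ) : ℤ) = t.1 * a m + t.2 := by
        intro m hm
        obtain ⟨n, h1, h2, h3⟩ := hk m hm
        omega
      obtain ⟨S, hS1, hS2⟩ := h0 N (by omega) x (fun m => (t.1 * a m + t.2).toNat) (by
        intro m hm
        obtain ⟨n, h1, h2, h3⟩ := hk m hm
        have e : (t.1 * a m + t.2).toNat = 2 * n := by omega
        rw [e]
        exact ⟨even_two_mul n, by omega, h2⟩) (by
        rw [energy_affine h x a _ t.1 t.2 hc hs]; exact hE)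
      refine ⟨S, fun _ => ⟨hS1, fun m hm hmS n hn Y hY => ?_⟩⟩
      have h4 := hS2 m hm hmS
      have e : (t.1 * a m + t.2).toNat = 2 * n := by omega
      rw [e] at h4
      exact (h4 Y hY).trans hmono
    · exact ⟨∅, fun h => absurd h ht⟩
  choose S hS using key
  have hsub : (Icc 1 x).filter (fun m => ¬ ∀ t ∈ T, ∀ n : ℕ, t.1 * a m + t.2 = 2 * n → ∀ Y < 2 * n,
        |Wp (2 * n) Y - sing (2 * n) * Y| ≤ N / Real.log N ^ U) ⊆ T.biUnion S := by
    intro m hm
    rw [mem_filter] at hm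
    obtain ⟨hm1, hb⟩ := hm
    by_contra hc
    apply hb
    intro t ht
    apply (hS t ht).2 m hm1
    intro hmS
    exact hc (mem_biUnion.2 ⟨t, ht, hmS⟩)
  calc (((Icc 1 x).filter (fun m => ¬ ∀ t ∈ T, ∀ n : ℕ, t.1 * a m + t.2 = 2 * n → ∀ Y < 2 * n,
        |Wp (2 * n) Y - sing (2 * n) * Y| ≤ N / Real.log N ^ U)).card : ℝ)
      ≤ ((T.biUnion S).card : ℝ) := by exact_mod_cast card_le_card hsub
    _ ≤ ∑ t ∈ T, ((S t).card : ℝ) := by exact_mod_cast card_biUnion_le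
    _ ≤ ∑ _t ∈ T, x / Real.log N ^ (U + U) := sum_le_sum fun t ht => (hS t ht).1
    _ = T.card * (x / Real.log N ^ (U + U)) := by rw [sum_const, nsmul_eq_mul]
    _ ≤ Real.log N ^ U * (x / Real.log N ^ (U + U)) := by
        apply mul_le_mul_of_nonneg_right hT
        positivity
    _ = x / Real.log N ^ U := by
        rw [pow_add]
        field_simp

open Classical in
theorem two (h C J U : ℕ) :
    ∃ M₀ : ℕ, ∀ M : ℕ, M₀ ≤ M → ∀ A : Finset ℕ, (∀ a ∈ A, a < M ∧ Even (M + a)) →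
      (∀ t, rep h A t ≤ J) → (M : ℝ) ≤ Real.log M ^ C * (A.card : ℝ) ^ h →
      ((A.filter (fun a => ¬ ∀ Y H : ℕ, M / Real.log M ^ U ≤ H → 2 * (Y + H) < M - a →
        ∃ q, Y < q ∧ q ≤ Y + H ∧ q.Prime ∧ (M - a - q).Prime ∧ q < M - a - q)).card : ℝ) ≤
        A.card / Real.log M ^ U := by
  obtain ⟨N₀, h0⟩ := one h (C + 1) (U + 1)
  obtain ⟨N₁, h1⟩ := Pool.Agent.H373R2.T7.ev_L' (J + 8)
  refine ⟨N₀ + N₁ + 3, fun M hM A hA hJ hcard => ?_⟩
  have hL := h1 M (by omega)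
  have hJ0 : (0 : ℝ) ≤ J := Nat.cast_nonneg _
  have hM0 : (0 : ℝ) ≤ M := Nat.cast_nonneg _
  have hL1 : 1 ≤ Real.log M := by linarith
  have hL0 : 0 < Real.log M := by linarith
  set x := A.card with hx
  obtain ⟨b, hb⟩ : ∃ b : ℕ → ℕ, Set.BijOn b (Icc 1 x : Finset ℕ) A := by
    apply Set.Finite.exists_bijOn_of_encard_eq (Finset.finite_toSet _)
    rw [Set.encard_coe_eq_coe_finsetCard, Set.encard_coe_eq_coe_finsetCard, Nat.card_Icc,
      Nat.add_sub_cancel]
  have hmem : ∀ m ∈ Icc 1 x, b m ∈ A := by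
    intro m hm
    exact_mod_cast hb.mapsTo (by exact_mod_cast hm)
  have hbad := h0 M (by omega) x (fun m => (b m : ℤ)) (by
      have h2 : (Pool.Agent.H373R2.T7.energy h x (fun m => (b m : ℤ)) : ℝ) ≤ (x : ℝ) ^ h * J := by
        exact_mod_cast energy_rep h x J A b hb hJ
      have hx0 : (0 : ℝ) ≤ (x : ℝ) ^ h := by positivity
      calc (Pool.Agent.H373R2.T7.energy h x (fun m => (b m : ℤ)) : ℝ) * M ≤
            ((x : ℝ) ^ h * J) * (Real.log M ^ C * (x : ℝ) ^ h) :=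
            mul_le_mul h2 hcard hM0 (mul_nonneg hx0 hJ0)
        _ = J * (Real.log M ^ C * (x : ℝ) ^ (2 * h)) := by ring
        _ ≤ Real.log M * (Real.log M ^ C * (x : ℝ) ^ (2 * h)) := by
            apply mul_le_mul_of_nonneg_right (by linarith) (by positivity)
        _ = Real.log M ^ (C + 1) * (x : ℝ) ^ (2 * h) := by ring) {((-1 : ℤ), (M : ℤ))} (by
      rw [card_singleton, Nat.cast_one]
      exact one_le_pow₀ hL1) (by
      intro t ht
      rw [mem_singleton] at ht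
      subst ht
      refine ⟨by norm_num, fun m hm => ?_⟩
      obtain ⟨h3, k, h4⟩ := hA (b m) (hmem m hm)
      exact ⟨k - b m, by omega, by omega, by simp only; omega⟩)
  refine le_trans ?_ (hbad.trans ?_)
  · have hcard2 : (A.filter (fun a => ¬ ∀ Y H : ℕ, M / Real.log M ^ U ≤ H → 2 * (Y + H) < M - a →
        ∃ q, Y < q ∧ q ≤ Y + H ∧ q.Prime ∧ (M - a - q).Prime ∧ q < M - a - q)).card ≤
      ((Icc 1 x).filter (fun m => ¬ ∀ t ∈ ({((-1 : ℤ), (M : ℤ))} : Finset (ℤ × ℤ)), ∀ n : ℕ,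
        t.1 * (b m : ℤ) + t.2 = 2 * n → ∀ Y < 2 * n,
        |Wp (2 * n) Y - sing (2 * n) * Y| ≤ M / Real.log M ^ (U + 1))).card := by
      apply card_le_card_of_surjOn b
      intro a ha
      simp only [coe_filter, Set.mem_ofPred_eq] at ha
      obtain ⟨haA, hna⟩ := ha
      obtain ⟨m, hm, hma⟩ := hb.surjOn (by exact_mod_cast haA : a ∈ (A : Set ℕ))
      refine ⟨m, ?_, hma⟩
      simp only [coe_filter, Set.mem_ofPred_eq]
      refine ⟨by exact_mod_cast hm, fun hall => hna ?_⟩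
      obtain ⟨h5, k, h6⟩ := hA a haA
      have hall' := hall _ (mem_singleton_self _) (k - a) (by simp only; rw [hma]; omega)
      have e : M - a = 2 * (k - a) := by omega
      intro Y H hH hYH
      rw [e] at hYH ⊢
      obtain ⟨q, q1, q2, q3, q4⟩ := prime_in (2 * (k - a)) M U Y H (by linarith) (by omega) hH
        (hall' Y (by omega)) (hall' (Y + H) (by omega))
      exact ⟨q, q1, q2, q3, q4, by omega⟩
    exact_mod_cast hcard2
  · apply div_le_div_of_nonneg_left (Nat.cast_nonneg _) (by positivity)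
    exact pow_le_pow_right₀ hL1 (by omega)

open Classical in
/-- Let `h`, `C` and `U` be fixed.

* Let `N` be large, `a 1, ..., a x` any family of integers whose additive energy of order `h` is at most
  `log^C N` times `x ^ (2 h) / N`, and `T` any set of at most `log^U N` affine forms `y ↦ c y + d`,
  `c ≠ 0`, all of whose values on the family are even integers in `[2, N]`. Then, for all but at most
  `x / log^U N` of the `m ≤ x`, all the values `2 n = c a(m) + d` of the forms of `T` satisfy, for ALL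
  `Y < 2 n`: the sum of `log p log (2 n - p)` over the primes `p ≤ Y` for which `2 n - p` is prime
  differs from `sing (2 n) Y` by at most `N / log^U N`.
* In particular: for EVERY large `M` and every finite set `A ⊆ [0, M)` of integers of the parity of `M`
  such that no integer has more than `J` representations as a sum of `h` elements of `A` and
  `M ≤ |A|^h log^C M`, for all but at most `|A| / log^U M` of the `a ∈ A` the even number `2 n = M - a` is
  a sum of two distinct primes `q < n < p` with `q` in any prescribed interval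
  `(Y, Y + H] ⊆ (0, n)` of length `H ≥ M / log^U M`. -/
theorem result (h C U : ℕ) :
    (∃ N₀ : ℕ, ∀ N : ℕ, N₀ ≤ N → ∀ (x : ℕ) (a : ℕ → ℤ),
      (Pool.Agent.H373R2.T7.energy h x a : ℝ) * N ≤ Real.log N ^ C * (x : ℝ) ^ (2 * h) →
      ∀ T : Finset (ℤ × ℤ), (T.card : ℝ) ≤ Real.log N ^ U →
      (∀ t ∈ T, t.1 ≠ 0 ∧ ∀ m ∈ Icc 1 x, ∃ n : ℕ, 1 ≤ n ∧ 2 * n ≤ N ∧ t.1 * a m + t.2 = 2 * n) →
      (((Icc 1 x).filter (fun m => ¬ ∀ t ∈ T, ∀ n : ℕ, t.1 * a m + t.2 = 2 * n → ∀ Y < 2 * n,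
        |Wp (2 * n) Y - sing (2 * n) * Y| ≤ N / Real.log N ^ U)).card : ℝ) ≤ x / Real.log N ^ U) ∧
    (∀ J : ℕ, ∃ M₀ : ℕ, ∀ M : ℕ, M₀ ≤ M → ∀ A : Finset ℕ, (∀ a ∈ A, a < M ∧ Even (M + a)) →
      (∀ t, rep h A t ≤ J) → (M : ℝ) ≤ Real.log M ^ C * (A.card : ℝ) ^ h →
      ((A.filter (fun a => ¬ ∀ Y H : ℕ, M / Real.log M ^ U ≤ H → 2 * (Y + H) < M - a →
        ∃ q, Y < q ∧ q ≤ Y + H ∧ q.Prime ∧ (M - a - q).Prime ∧ q < M - a - q)).card : ℝ) ≤
        A.card / Real.log M ^ U) :=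
  ⟨one h C U, fun J => two h C J U⟩

end Pool.Agent.Results.MP_7b7e48_nt.EveryInterval
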