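import Pool.Agent.H378R2.PT.Main
import Pool.Agent.H674R2.PT.T1
import Pool.Agent.H398R2.RK.Surv

set_option autoImplicit false

/-! # Families of even numbers all of whose Goldbach representations start late

With `F(x) = log x (log₂ x)³ log₄ x / (log₃ x)²` (iterated logarithms): for every finite set `S` of
shifts `s` with `|s| ≤ (log₂ X)^A`, every interval `(M, M + X]`, `M ≥ X ≥ X₀`, contains in every
residue class modulo `D` an `m` such that every representation of one of the numbers `m + s`, `s ∈ S`,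
as a sum of two primes has both summands larger than `c F(X) / |S|`.

The proof applies the theorem on prime-free translates of `Pool.Agent.H378R2.PT` (covering sieve of
`Pool.Agent.H256R2.SC`) to the set of all differences `s - p`, with `s ∈ S` and `p` a small prime. -/

namespace Pool.Agent.Results.MP_7b7e48_nt.LateShiftedFamilies

open Finset
open Pool.Agent.H256R2.SC (ff)
open Pool.Agent.H256R2.SC.LG (ev_log half_log ff_half log10_lt log_sq_le)

/-- `F(x) = log x (log₂ x)³ log₄ x / (log₃ x)²` (iterated natural logarithms). -/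
noncomputable def F (x : ℝ) : ℝ :=
  Real.log x * (Real.log (Real.log x)) ^ 3 * Real.log (Real.log (Real.log (Real.log x))) /
    (Real.log (Real.log (Real.log x))) ^ 2

theorem F_eq (x : ℝ) : F x = ff x * Real.log (Real.log x) := by
  unfold F ff
  ring

/-- `K · (log₂ X)^A ≤ (log X)^{1/2}` for large `X`. -/
theorem pow_small (A : ℕ) (K : ℝ) : ∃ X₀ : ℝ, ∀ X : ℝ, X₀ ≤ X →
    K * (Real.log (Real.log X)) ^ A ≤ (Real.log X) ^ (1 / 2 : ℝ) := by
  have h1 : (fun y : ℝ => (Real.log y) ^ A) =o[Filter.atTop] (fun y : ℝ => y ^ (1 / 2 : ℝ)) := by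
    have := isLittleO_log_rpow_rpow_atTop (A : ℝ) (show (0 : ℝ) < 1 / 2 by norm_num)
    simpa [Real.rpow_natCast] using this
  have h2 := h1.bound (show (0 : ℝ) < 1 / (|K| + 1) by positivity)
  have h3 := Real.tendsto_log_atTop.eventually h2
  have h4 : ∀ᶠ X : ℝ in Filter.atTop, 1 ≤ Real.log X := Real.tendsto_log_atTop.eventually_ge_atTop 1
  obtain ⟨X₀, hX₀⟩ := Filter.eventually_atTop.1 (h3.and h4)
  refine ⟨X₀, fun X hX => ?_⟩
  obtain ⟨h5, h6⟩ := hX₀ X hX
  have h7 : 0 ≤ Real.log (Real.log X) := Real.log_nonneg h6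
  rw [Real.norm_of_nonneg (by positivity), Real.norm_of_nonneg (by positivity)] at h5
  have h8 : K * (Real.log (Real.log X)) ^ A ≤ (|K| + 1) * (Real.log (Real.log X)) ^ A := by
    apply mul_le_mul_of_nonneg_right _ (by positivity)
    linarith [le_abs_self K]
  have h9 : (|K| + 1) * (Real.log (Real.log X)) ^ A ≤
      (|K| + 1) * (1 / (|K| + 1) * (Real.log X) ^ (1 / 2 : ℝ)) := by
    gcongr
  have h10 : (|K| + 1) * (1 / (|K| + 1) * (Real.log X) ^ (1 / 2 : ℝ)) =
      (Real.log X) ^ (1 / 2 : ℝ) := by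
    field_simp
  linarith

/-- **Families of numbers all of whose Goldbach representations start late.** -/
theorem result : ∀ A D : ℕ, 0 < D → ∃ c : ℝ, 0 < c ∧ ∃ X₀ : ℝ, ∀ X : ℝ, X₀ ≤ X →
    ∀ M : ℝ, X ≤ M → ∀ r : ℕ, ∀ S : Finset ℤ,
    (∀ d ∈ S, |(d : ℝ)| ≤ (Real.log (Real.log X)) ^ A) →
    ∃ m : ℕ, M < m ∧ (m : ℝ) ≤ M + X ∧ m ≡ r [MOD D] ∧
      ∀ d ∈ S, ∀ p q : ℕ, p.Prime → q.Prime → (p : ℤ) + q = m + d →
        c * F X / (S.card : ℝ) < p ∧ c * F X / (S.card : ℝ) < q := by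
  intro A D hD
  obtain ⟨c, hc, X₁, h⟩ := Pool.Agent.H378R2.PT.main_of (A + 5)
    (Pool.Agent.H378R2.PT.rough_count (A + 5 + 1)) D hD
  obtain ⟨X₂, h₂⟩ := ev_log 100
  set c' : ℝ := min 1 (c / 20) with hc'
  have hc'0 : 0 < c' := lt_min one_pos (by positivity)
  have hc'1 : c' ≤ 1 := min_le_left _ _
  have hc'2 : c' ≤ c / 20 := min_le_right _ _
  obtain ⟨X₃, h₃⟩ := pow_small A (6 / c')
  refine ⟨c', hc'0, max X₁ (max X₂ X₃), fun X hX M hM r S hS => ?_⟩
  obtain ⟨hX1, m1, m2, m3, m4⟩ := h₂ X ((le_max_left _ _).trans ((le_max_right _ _).trans hX))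
  have hpw := h₃ X ((le_max_right _ _).trans ((le_max_right _ _).trans hX))
  have hFf := F_eq X
  have hFd : F X = Real.log X * (Real.log (Real.log X)) ^ 3 *
    Real.log (Real.log (Real.log (Real.log X))) / (Real.log (Real.log (Real.log X))) ^ 2 := rfl
  have hfd : ff X = Real.log X * (Real.log (Real.log X)) ^ 2 *
    Real.log (Real.log (Real.log (Real.log X))) / (Real.log (Real.log (Real.log X))) ^ 2 := rfl
  set l1 := Real.log X with hl1
  set l2 := Real.log l1 with hl2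
  set l3 := Real.log l2 with hl3
  set l4 := Real.log l3 with hl4
  have p1 : 0 < l1 := by linarith
  have p2 : 0 < l2 := by linarith
  have p3 : 0 < l3 := by linarith
  have p4 : 0 < l4 := by linarith
  have q1 : l3 ^ 2 ≤ 4 * l2 := log_sq_le (by linarith)
  have q3 : l4 ≤ l3 := by
    have := Real.log_le_sub_one_of_pos p3
    linarith
  have hff0 : 0 ≤ ff X := by rw [hfd]; positivity
  have hF0 : 0 ≤ F X := by rw [hFd]; positivity
  -- upper bound for F
  have hFup : F X ≤ l1 * l2 ^ 4 := by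
    rw [hFd]
    have e1 : l4 / l3 ^ 2 ≤ 1 := by
      rw [div_le_one (by positivity)]
      nlinarith
    have e2 : l2 ^ 3 ≤ l2 ^ 4 := pow_le_pow_right₀ (by linarith) (by norm_num)
    calc l1 * l2 ^ 3 * l4 / l3 ^ 2 = l1 * l2 ^ 3 * (l4 / l3 ^ 2) := by ring
      _ ≤ l1 * l2 ^ 3 * 1 := by gcongr
      _ ≤ l1 * l2 ^ 4 := by rw [mul_one]; gcongr
  -- lower bound for F
  have hFlow : l1 ≤ F X := by
    rw [hFd]
    have e1 : l1 * l2 ^ 3 * l4 / (4 * l2) ≤ l1 * l2 ^ 3 * l4 / l3 ^ 2 :=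
      div_le_div_of_nonneg_left (by positivity) (by positivity) q1
    have e2 : l1 * l2 ^ 3 * l4 / (4 * l2) = l1 * l2 ^ 2 * l4 / 4 := by
      field_simp
    have e3 : 100 * 100 ≤ l2 * l4 := mul_le_mul m2 m4 (by norm_num) p2.le
    have e5 : 100 * (100 * 100) ≤ l2 * (l2 * l4) := mul_le_mul m2 e3 (by norm_num) p2.le
    calc l1 ≤ l1 * (100 * (100 * 100)) / 4 := by linarith
      _ ≤ l1 * (l2 * (l2 * l4)) / 4 := by gcongr
      _ = l1 * l2 ^ 2 * l4 / 4 := by ring
      _ ≤ l1 * l2 ^ 3 * l4 / l3 ^ 2 := by rw [← e2]; exact e1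
  -- the empty set of `d`
  rcases S.eq_empty_or_nonempty with hSe | hSne
  · obtain ⟨n, hn1, hn2, hn3, -⟩ := h X ((le_max_left _ _).trans hX) M hM r ∅ (by simp)
      (by simp only [card_empty, Nat.cast_zero]; positivity)
    exact ⟨n, hn1, hn2, hn3, by simp [hSe]⟩
  have hSc0 : 0 < S.card := card_pos.2 hSne
  have hSc1 : (1 : ℝ) ≤ S.card := by exact_mod_cast hSc0
  have hSc0' : (0 : ℝ) < S.card := by linarith
  have hl2A : 1 ≤ l2 ^ A := one_le_pow₀ (by linarith)
  -- `|S| ≤ 3 (log₂ X)^A`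
  have hScard : (S.card : ℝ) ≤ 3 * l2 ^ A := by
    have hsub : S ⊆ Finset.Icc (-(⌊l2 ^ A⌋₊ : ℤ)) (⌊l2 ^ A⌋₊ : ℤ) := by
      intro d hd
      have h1 := hS d hd
      have h2 : ((d.natAbs : ℕ) : ℝ) ≤ l2 ^ A := by
        rw [Nat.cast_natAbs]
        push_cast
        exact h1
      have h3 : d.natAbs ≤ ⌊l2 ^ A⌋₊ := Nat.le_floor h2
      rw [Finset.mem_Icc]
      omega
    have h1 := card_le_card hsub
    rw [Int.card_Icc] at h1
    have h2 : S.card ≤ 2 * ⌊l2 ^ A⌋₊ + 1 := by omega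
    have h3 : (⌊l2 ^ A⌋₊ : ℝ) ≤ l2 ^ A := Nat.floor_le (by positivity)
    have h4 : (S.card : ℝ) ≤ 2 * ⌊l2 ^ A⌋₊ + 1 := by exact_mod_cast h2
    linarith
  have hsq : (l1 ^ (1 / 2 : ℝ)) * (l1 ^ (1 / 2 : ℝ)) = l1 := by
    rw [← Real.rpow_add p1]
    norm_num
  have hsq1 : 1 ≤ l1 ^ (1 / 2 : ℝ) := Real.one_le_rpow (by linarith) (by norm_num)
  -- `c' F X / |S| ≥ 2 √(log X)`
  have hlow : 2 * l1 ^ (1 / 2 : ℝ) ≤ c' * F X / S.card := by
    rw [le_div_iff₀ hSc0']
    have e1 : 6 * l2 ^ A ≤ c' * l1 ^ (1 / 2 : ℝ) := by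
      have : 6 / c' * l2 ^ A = (6 * l2 ^ A) / c' := by ring
      rw [this, div_le_iff₀ hc'0] at hpw
      linarith
    calc 2 * l1 ^ (1 / 2 : ℝ) * S.card ≤ 2 * l1 ^ (1 / 2 : ℝ) * (3 * l2 ^ A) := by gcongr
      _ = l1 ^ (1 / 2 : ℝ) * (6 * l2 ^ A) := by ring
      _ ≤ l1 ^ (1 / 2 : ℝ) * (c' * l1 ^ (1 / 2 : ℝ)) := by gcongr
      _ = c' * (l1 ^ (1 / 2 : ℝ) * l1 ^ (1 / 2 : ℝ)) := by ring
      _ = c' * l1 := by rw [hsq]
      _ ≤ c' * F X := by gcongr
  set L : ℕ := ⌊c' * F X / S.card⌋₊ with hL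
  have hLnn : 0 ≤ c' * F X / S.card := by positivity
  have hL1 : (L : ℝ) ≤ c' * F X / S.card := Nat.floor_le hLnn
  have hL2 : l1 ^ (1 / 2 : ℝ) ≤ L := by
    have := Nat.lt_floor_add_one (c' * F X / S.card)
    rw [← hL] at this
    linarith
  have hsq2 : 2 ≤ l1 ^ (1 / 2 : ℝ) := by
    by_contra hcon
    push Not at hcon
    have : l1 ^ (1 / 2 : ℝ) * l1 ^ (1 / 2 : ℝ) < 2 * 2 := by
      apply mul_lt_mul'' hcon hcon (by linarith) (by linarith)
    rw [hsq] at this
    linarith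
  have hL3 : 2 ≤ L := by
    have : (2 : ℝ) ≤ L := by linarith
    exact_mod_cast this
  have hlogL : l2 / 2 ≤ Real.log L := by
    have h1 : Real.log (l1 ^ (1 / 2 : ℝ)) ≤ Real.log L := Real.log_le_log (by positivity) hL2
    rw [Real.log_rpow p1] at h1
    linarith
  have hpi := Pool.Agent.H398R2.RK.primes_le L hL3
  set P : Finset ℕ := (Finset.Icc 1 L).filter Nat.Prime with hP
  set Z : Finset ℤ := (S ×ˢ P).image (fun x : ℤ × ℕ => x.1 - (x.2 : ℤ)) with hZ
  have hLF : (L : ℝ) ≤ F X := by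
    refine hL1.trans ?_
    rw [div_le_iff₀ hSc0']
    nlinarith
  obtain ⟨n, hn1, hn2, hn3, hn4⟩ := h X ((le_max_left _ _).trans hX) M hM r Z
    (by
      intro z hz
      obtain ⟨⟨d, p⟩, hdp, rfl⟩ := mem_image.1 hz
      obtain ⟨hd, hp⟩ := mem_product.1 hdp
      have hpL : (p : ℝ) ≤ L := by
        have := (mem_Icc.1 (mem_filter.1 hp).1).2
        exact_mod_cast this
      have hd1 := hS d hd
      simp only
      push_cast
      have hp0 : (0 : ℝ) ≤ p := Nat.cast_nonneg p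
      have hpup : (p : ℝ) ≤ l1 * l2 ^ 4 := hpL.trans (hLF.trans hFup)
      have t1 : |(d : ℝ) - p| ≤ |(d : ℝ)| + p := by
        calc |(d : ℝ) - p| ≤ |(d : ℝ)| + |(p : ℝ)| := abs_sub _ _
          _ = |(d : ℝ)| + p := by rw [abs_of_nonneg hp0]
      have t2 : l2 ^ A ≤ l1 * l2 ^ (A + 4) := by
        have u1 : l2 ^ A ≤ l2 ^ (A + 4) := pow_le_pow_right₀ (by linarith) (by omega)
        have u2 : (0 : ℝ) ≤ l2 ^ (A + 4) := by positivity
        nlinarith
      have t3 : l1 * l2 ^ 4 ≤ l1 * l2 ^ (A + 4) := by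
        have u1 : l2 ^ 4 ≤ l2 ^ (A + 4) := pow_le_pow_right₀ (by linarith) (by omega)
        gcongr
      have t4 : 2 * (l1 * l2 ^ (A + 4)) ≤ l1 * l2 ^ (A + 5) := by
        have u1 : l2 ^ (A + 5) = l2 ^ (A + 4) * l2 := by ring
        rw [u1]
        have u2 : (0 : ℝ) ≤ l1 * l2 ^ (A + 4) := by positivity
        nlinarith
      linarith)
    (by
      have e1 : (Z.card : ℝ) ≤ S.card * P.card := by
        have a1 : Z.card ≤ S.card * P.card := by
          rw [← card_product]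
          exact card_image_le
        exact_mod_cast a1
      have e2 : 10 * (L : ℝ) / Real.log L ≤ 10 * (c' * F X / S.card) / (l2 / 2) := by
        gcongr
      have e3 : S.card * (10 * (c' * F X / S.card) / (l2 / 2)) = 20 * c' * ff X := by
        rw [hFf]
        field_simp
        ring
      have e4 : 20 * c' * ff X ≤ c * ff X := by
        apply mul_le_mul_of_nonneg_right _ hff0
        linarith
      calc (Z.card : ℝ) ≤ S.card * P.card := e1
        _ ≤ S.card * (10 * (c' * F X / S.card) / (l2 / 2)) := by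
            gcongr
            exact hpi.trans e2
        _ = 20 * c' * ff X := e3
        _ ≤ c * ff X := e4)
  refine ⟨n, hn1, hn2, hn3, ?_⟩
  have key : ∀ d ∈ S, ∀ p q : ℕ, p.Prime → q.Prime → (p : ℤ) + q = n + d →
      c' * F X / (S.card : ℝ) < p := by
    intro d hd p q hp hq hpq
    by_contra hcon
    push Not at hcon
    have hpL : p ≤ L := Nat.le_floor hcon
    have hpP : p ∈ P := mem_filter.2 ⟨mem_Icc.2 ⟨hp.pos, hpL⟩, hp⟩
    apply hn4 (d - (p : ℤ)) (mem_image.2 ⟨(d, p), mem_product.2 ⟨hd, hpP⟩, rfl⟩)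
    have : (n : ℤ) + (d - (p : ℤ)) = (q : ℤ) := by omega
    rw [this]
    exact Nat.prime_iff_prime_int.1 hq
  intro d hd p q hp hq hpq
  exact ⟨key d hd p q hp hq hpq, key d hd q p hq hp (by omega)⟩

end Pool.Agent.Results.MP_7b7e48_nt.LateShiftedFamilies
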