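import Pool.Agent.H441R4.GB.Fin

/-!
Goldbach's problem with a small multiplier: `n = p + m q` with distinct primes `p`, `q` and
`1 ≤ m ≤ n^ε`, for all `n ∈ (N, 2N]` but `N^(1 - 2ε) (log N)^O(1)`.
-/

set_option autoImplicit false

namespace Pool.Agent.Results.MP_7b7e48_nt.SmallMultiplier

open Finset

open Classical in
/-- the integers `n` with `N < n ≤ 2N` that are not of the form `p + m q` with distinct primes
`p`, `q` and `1 ≤ m ≤ n^ε` -/
noncomputable def exceptional (ε : ℝ) (N : ℕ) : Finset ℕ :=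
  (Ioc N (2 * N)).filter (fun n => ¬ ∃ p q m : ℕ, p.Prime ∧ q.Prime ∧ p ≠ q ∧ 1 ≤ m ∧
    (m : ℝ) ≤ (n : ℝ) ^ ε ∧ n = p + m * q)

/-- **Goldbach's problem with a small multiplier.** For `0 < ε ≤ 1/2`, all the integers
`n ∈ (N, 2N]` with at most `C N^(1 - 2ε) (log N)^B` exceptions are of the form `p + m q` with
distinct primes `p`, `q` and `1 ≤ m ≤ n^ε`. -/
theorem result (ε : ℝ) (hε : 0 < ε) (hε1 : ε ≤ 1 / 2) : ∃ B C : ℝ, ∀ N : ℕ, 3 ≤ N →
    ((exceptional ε N).card : ℝ) ≤ C * (N : ℝ) ^ (1 - 2 * ε) * Real.log N ^ B :=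
  Pool.Agent.H441R4.GB.count ε hε hε1

end Pool.Agent.Results.MP_7b7e48_nt.SmallMultiplier
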